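import Pool.Agent.Helper47.Cyc.Final
import Pool.Agent.Helper80.Cyc.D

/-!
The quotient of a Boolean lattice by a group generated by pairwise disjoint permutations
(in particular by any cyclic permutation group) has a symmetric chain decomposition.
-/

namespace Pool.Agent.Results.MP_0130f7_co.DisjointGenerators

/-- The quotient poset `B_n / G` has a symmetric chain decomposition: there are finitely many
non-empty lists of subsets of `Fin n`, in each of which consecutive sets `A`, `B` satisfy `A ⊆ B`
and `|B| = |A| + 1` and the sizes of the first and the last set add up to `n`, such that every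
subset of `Fin n` is in the `G`-orbit of exactly one entry of exactly one of the lists. -/
def QuotientHasSCD (n : ℕ) (G : Subgroup (Equiv.Perm (Fin n))) : Prop :=
  ∃ C : Finset (List (Finset (Fin n))),
    (∀ L ∈ C, L ≠ [] ∧
      (∀ (i : ℕ) (A B : Finset (Fin n)), L[i]? = some A → L[i+1]? = some B →
          A ⊆ B ∧ B.card = A.card + 1) ∧
      (∀ A ∈ L.head?, ∀ B ∈ L.getLast?, A.card + B.card = n)) ∧
    ∀ S : Finset (Fin n), ∃! p : List (Finset (Fin n)) × ℕ,
      p.1 ∈ C ∧ ∃ T : Finset (Fin n), p.1[p.2]? = some T ∧
        ∃ g ∈ G, T.map (Equiv.toEmbedding g) = S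

/-- If `G ≤ S_n` is generated by permutations with pairwise disjoint supports (for instance if `G`
is cyclic), then `B_n / G` has a symmetric chain decomposition. -/
theorem result (n : ℕ) (s : Set (Equiv.Perm (Fin n))) (hs : s.Pairwise Equiv.Perm.Disjoint) :
    QuotientHasSCD n (Subgroup.closure s) := by
  classical
  obtain ⟨T, h1, -, h2⟩ := Pool.Agent.Helper47.Cyc.disjoint_family s.toFinite.toFinset
    (fun σ hσ τ hτ hne => hs ((Set.Finite.mem_toFinset _).1 hσ) ((Set.Finite.mem_toFinset _).1 hτ) hne)
    Finset.univ (fun _ _ => Finset.subset_univ _)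
  rw [Finset.card_univ, Fintype.card_fin] at h1
  rw [Set.Finite.coe_toFinset] at h2
  exact Pool.Agent.Helper47.Cyc.to_lists (Subgroup.closure s) T h1
    (fun S => h2 S (Finset.subset_univ _))

end Pool.Agent.Results.MP_0130f7_co.DisjointGenerators
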