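import Pool.Agent.Helper91.FS.Fin3

/-!
Symmetric chain decompositions of `B_n / G` for permutation groups of large degree in which `t` points
have a small pointwise stabiliser and the elements have few fixed points.
-/

namespace Pool.Agent.Results.MP_0130f7_co.FewInvariantSets

/-- The quotient poset `B_n / G` has a symmetric chain decomposition: there are finitely many
non-empty lists of subsets of `Fin n`, in each of which consecutive sets `A`, `B` satisfy `A ⊆ B`
and `|B| = |A| + 1` and the sizes of the first and the last set add up to `n`, such that every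
subset of `Fin n` is in the `G`-orbit of exactly one entry of exactly one of the lists. -/
def QuotientHasSCD (n : ℕ) (G : Subgroup (Equiv.Perm (Fin n))) : Prop :=
  ∃ C : Finset (List (Finset (Fin n))),
    (∀ L ∈ C, L ≠ [] ∧
      (∀ (i : ℕ) (A B : Finset (Fin n)), L[i]? = some A → L[i+1]? = some B →
          A ⊆ B ∧ B.card = A.card + 1) ∧
      (∀ A ∈ L.head?, ∀ B ∈ L.getLast?, A.card + B.card = n)) ∧
    ∀ S : Finset (Fin n), ∃! p : List (Finset (Fin n)) × ℕ,
      p.1 ∈ C ∧ ∃ T : Finset (Fin n), p.1[p.2]? = some T ∧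
        ∃ g ∈ G, T.map (Equiv.toEmbedding g) = S

section

variable {n : ℕ}

/-- The number of the elements of `G` fixing all the points of `T`. -/
noncomputable def pointwiseStab (G : Subgroup (Equiv.Perm (Fin n))) (T : Finset (Fin n)) : ℕ :=
  Nat.card {g : Equiv.Perm (Fin n) // g ∈ G ∧ ∀ x ∈ T, g x = x}

/-- The number of the elements of `G` mapping the set `A` onto itself. -/
noncomputable def setStab (G : Subgroup (Equiv.Perm (Fin n))) (A : Finset (Fin n)) : ℕ :=
  Nat.card {g : Equiv.Perm (Fin n) // g ∈ G ∧ A.map (Equiv.toEmbedding g) = A}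

/-- The number of the fixed points of `g`. -/
noncomputable def fixCount (g : Equiv.Perm (Fin n)) : ℕ := Nat.card {x : Fin n // g x = x}

/-- `G` has at most two orbits on the `m`-sets. -/
def AtMostTwoOrbits (G : Subgroup (Equiv.Perm (Fin n))) (m : ℕ) : Prop :=
  ∀ A B C : Finset (Fin n), A.card = m → B.card = m → C.card = m →
    (∃ g ∈ G, A.map (Equiv.toEmbedding g) = B) ∨ (∃ g ∈ G, A.map (Equiv.toEmbedding g) = C) ∨
      ∃ g ∈ G, B.map (Equiv.toEmbedding g) = C

/-- The stabilisers of the `m`-sets have orders `≥ k`, and the sum of the excesses over `k` is at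
most `n ^ (m - 1/10)`. -/
def AlmostUniform (G : Subgroup (Equiv.Perm (Fin n))) (m : ℕ) : Prop :=
  ∃ k : ℕ, 1 ≤ k ∧ (∀ A : Finset (Fin n), A.card = m → k ≤ setStab G A) ∧
    (∑ A ∈ Finset.powersetCard m Finset.univ, (setStab G A - k)) ^ 10 ≤ n ^ (10 * m - 1)

/-- As `AlmostUniform`, with `k` or `2 k` (if `w A = 1`) instead of `k`; every `(m-1)`-set is contained
in the same number `d` of `m`-sets `A` with `w A = 1`. -/
def TwoWeights (G : Subgroup (Equiv.Perm (Fin n))) (m : ℕ) : Prop :=
  ∃ (k d : ℕ) (w : Finset (Fin n) → ℕ), 1 ≤ m ∧ 1 ≤ k ∧ (∀ A, w A ≤ 1) ∧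
    (∀ T : Finset (Fin n), T.card + 1 = m → ∑ x ∈ Finset.univ \ T, w (insert x T) = d) ∧
    (∀ A : Finset (Fin n), A.card = m → k * (1 + w A) ≤ setStab G A) ∧
    (∑ A ∈ Finset.powersetCard m Finset.univ, (setStab G A - k * (1 + w A))) ^ 10 ≤ n ^ (10 * m - 1)

end

section

open Pool.Agent.Helper91.FS Pool.Agent.Helper47.SR Pool.Agent.Helper49.NF

theorem pointwiseStab_eq {n : ℕ} (G : Subgroup (Equiv.Perm (Fin n))) (T : Finset (Fin n)) :
    pst G T = pointwiseStab G T := by
  classical
  unfold pointwiseStab pst els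
  rw [Finset.filter_filter, Nat.card_eq_fintype_card, Fintype.card_subtype]

theorem fixCount_eq {n : ℕ} (g : Equiv.Perm (Fin n)) : fx g = fixCount g := by
  classical
  unfold fixCount fx
  rw [Nat.card_eq_fintype_card, Fintype.card_subtype]

theorem setStab_eq {n : ℕ} (G : Subgroup (Equiv.Perm (Fin n))) (A : Finset (Fin n)) :
    1 + wt G A = setStab G A := by
  classical
  unfold setStab wt
  rw [Nat.card_eq_fintype_card, Fintype.card_subtype]
  have h : (Finset.univ.filter (fun g : Equiv.Perm (Fin n) => g ∈ G ∧ A.map (Equiv.toEmbedding g) = A)) =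
      insert 1 (Finset.univ.filter (fun g : Equiv.Perm (Fin n) => g ∈ G ∧ g ≠ 1 ∧ mv g A = A)) := by
    ext g
    simp only [Finset.mem_filter, Finset.mem_univ, true_and, Finset.mem_insert]
    constructor
    · rintro ⟨h1, h2⟩
      by_cases h3 : g = 1
      · exact Or.inl h3
      · exact Or.inr ⟨h1, h3, h2⟩
    · rintro (rfl | ⟨h1, -, h2⟩)
      · refine ⟨G.one_mem, ?_⟩
        exact Finset.map_refl
      · exact ⟨h1, h2⟩
  rw [h, Finset.card_insert_of_notMem, add_comm]
  simp

theorem exc_eq {n : ℕ} (G : Subgroup (Equiv.Perm (Fin n))) (m : ℕ) (v : Finset (Fin n) → ℕ)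
    (h : ∀ A : Finset (Fin n), A.card = m → v A ≤ setStab G A) :
    W G (lev n m) = ∑ A ∈ lev n m, v A +
      ∑ A ∈ Finset.powersetCard m Finset.univ, (setStab G A - v A) := by
  unfold W
  rw [← Finset.sum_add_distrib]
  apply Finset.sum_congr rfl
  intro A hA
  have h1 := h A (Finset.mem_powersetCard.1 hA).2
  rw [setStab_eq]
  omega

theorem two_of {n : ℕ} {G : Subgroup (Equiv.Perm (Fin n))} {m : ℕ} (h : AtMostTwoOrbits G m) :
    Two G m := by
  intro A hA B hB C hC
  exact h A B C (Finset.mem_powersetCard.1 hA).2 (Finset.mem_powersetCard.1 hB).2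
    (Finset.mem_powersetCard.1 hC).2

theorem aun_of {n : ℕ} {G : Subgroup (Equiv.Perm (Fin n))} {m : ℕ} (h : AlmostUniform G m) :
    AUn n G m := by
  obtain ⟨k, hk, h1, h2⟩ := h
  refine ⟨k, _, ⟨hk, ?_, ?_⟩, h2⟩
  · intro A hA
    rw [setStab_eq]
    exact h1 A (Finset.mem_powersetCard.1 hA).2
  · have h3 := exc_eq G m (fun _ => k) h1
    rw [h3, Finset.sum_const, Finset.card_powersetCard, Finset.card_univ, Fintype.card_fin,
      smul_eq_mul, mul_comm]

theorem twn_of {n : ℕ} {G : Subgroup (Equiv.Perm (Fin n))} {m : ℕ} (h : TwoWeights G m) :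
    TWn n G m := by
  obtain ⟨k, d, w, hm, hk, h1, h2, h3, h4⟩ := h
  refine ⟨m - 1, k, _, d, w, by omega, ⟨h1, ?_⟩, hk, ?_, ?_, h4⟩
  · intro T hT
    refine h2 T ?_
    rw [(Finset.mem_powersetCard.1 hT).2]
    omega
  · intro A hA
    rw [setStab_eq]
    exact h3 A (Finset.mem_powersetCard.1 hA).2
  · have h5 := exc_eq G m (fun A => k * (1 + w A)) h3
    rw [h5, ← Finset.mul_sum]

end

/-- For every `t ≥ 1` there is `n₀` such that `B_n / G` has a symmetric chain decomposition for all
`n ≥ n₀` and all `G ≤ S_n` with the following properties: the pointwise stabilisers of the `t`-sets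
have order at most `L`, where `L ^ (1000 t) ≤ n`; the elements different from the identity have at most
`n ^ (3/5)` fixed points; and for every `m < M`, `M = max (t + 2) (2 t - 1)`, either `G` has at most two
orbits on the `m`-sets, or `t ≤ m` and `TwoWeights G m` and, if `m + 1 < M`, `AlmostUniform G (m + 1)`. -/
theorem result : ∀ t : ℕ, 1 ≤ t → ∃ n₀ : ℕ, ∀ n : ℕ, n₀ ≤ n →
    ∀ (L : ℕ) (G : Subgroup (Equiv.Perm (Fin n))),
      (∀ T : Finset (Fin n), T.card = t → pointwiseStab G T ≤ L) → L ^ (1000 * t) ≤ n →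
      (∀ g ∈ G, g ≠ 1 → fixCount g ^ 5 ≤ n ^ 3) →
      (∀ m : ℕ, m < max (t + 2) (2 * t - 1) →
        AtMostTwoOrbits G m ∨ (t ≤ m ∧ TwoWeights G m ∧
          (m + 1 < max (t + 2) (2 * t - 1) → AlmostUniform G (m + 1)))) →
      QuotientHasSCD n G := by
  intro t ht
  obtain ⟨n₀, h⟩ := Pool.Agent.Helper91.FS.stA3 t ht
  refine ⟨n₀ + t, fun n hn L G hL1 hL2 hf hlow => ?_⟩
  have hL : 1 ≤ L := by
    obtain ⟨T, hT, hTc⟩ := Finset.exists_subset_card_eq
      (show t ≤ (Finset.univ : Finset (Fin n)).card by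
        rw [Finset.card_univ, Fintype.card_fin]; omega)
    refine le_trans ?_ (hL1 T hTc)
    unfold pointwiseStab
    have : Nonempty {g : Equiv.Perm (Fin n) // g ∈ G ∧ ∀ x ∈ T, g x = x} :=
      ⟨⟨1, G.one_mem, fun x _ => rfl⟩⟩
    exact Nat.one_le_iff_ne_zero.2 Nat.card_pos.ne'
  have hE : Pool.Agent.Helper91.FS.Eg t n L (Pool.Agent.Helper91.FS.mfx G) G :=
    { t1 := ht
      tn := by omega
      L1 := hL
      st := fun T hT => by rw [pointwiseStab_eq]; exact hL1 T hT
      fix := Pool.Agent.Helper91.FS.le_mfx G }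
  refine h n (by omega) L _ G hE hL2
    (Pool.Agent.Helper91.FS.mfx_pow G (fun g hg h1 => by rw [fixCount_eq]; exact hf g hg h1)) ?_
  intro m hm
  rcases hlow m (by omega) with h1 | ⟨h1, h2, h3⟩
  · exact Or.inl (two_of h1)
  · refine Or.inr ⟨h1, twn_of h2, ?_⟩
    by_cases hc : m + 1 < max (t + 2) (2 * t - 1)
    · exact Or.inr (aun_of (h3 hc))
    · left
      omega

end Pool.Agent.Results.MP_0130f7_co.FewInvariantSets
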