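import Pool.Agent.Helper49.NF.Main

/-!
Symmetric chain decompositions of `B_n / G` for permutation groups `G` of large degree with small
point stabilisers of constant order and few fixed points; binary bracelets.
-/

namespace Pool.Agent.Results.MP_0130f7_co.NearlyFreeGroups

/-- The quotient poset `B_n / G` has a symmetric chain decomposition: there are finitely many
non-empty lists of subsets of `Fin n`, in each of which consecutive sets `A`, `B` satisfy `A ⊆ B`
and `|B| = |A| + 1` and the sizes of the first and the last set add up to `n`, such that every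
subset of `Fin n` is in the `G`-orbit of exactly one entry of exactly one of the lists. -/
def QuotientHasSCD (n : ℕ) (G : Subgroup (Equiv.Perm (Fin n))) : Prop :=
  ∃ C : Finset (List (Finset (Fin n))),
    (∀ L ∈ C, L ≠ [] ∧
      (∀ (i : ℕ) (A B : Finset (Fin n)), L[i]? = some A → L[i+1]? = some B →
          A ⊆ B ∧ B.card = A.card + 1) ∧
      (∀ A ∈ L.head?, ∀ B ∈ L.getLast?, A.card + B.card = n)) ∧
    ∀ S : Finset (Fin n), ∃! p : List (Finset (Fin n)) × ℕ,
      p.1 ∈ C ∧ ∃ T : Finset (Fin n), p.1[p.2]? = some T ∧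
        ∃ g ∈ G, T.map (Equiv.toEmbedding g) = S

/-- The order of the stabiliser of the point `x` in `G`. -/
noncomputable def stabOrder {n : ℕ} (G : Subgroup (Equiv.Perm (Fin n))) (x : Fin n) : ℕ :=
  Nat.card {g : Equiv.Perm (Fin n) // g ∈ G ∧ g x = x}

/-- The number of the fixed points of `g`. -/
noncomputable def fixCount {n : ℕ} (g : Equiv.Perm (Fin n)) : ℕ := Nat.card {x : Fin n // g x = x}

theorem stabOrder_eq {n : ℕ} (G : Subgroup (Equiv.Perm (Fin n))) (x : Fin n) :
    Pool.Agent.Helper49.NF.stc G x = stabOrder G x := by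
  classical
  unfold stabOrder Pool.Agent.Helper49.NF.stc Pool.Agent.Helper49.NF.els
  rw [Finset.filter_filter, Nat.card_eq_fintype_card, Fintype.card_subtype]

theorem fixCount_eq {n : ℕ} (g : Equiv.Perm (Fin n)) :
    Pool.Agent.Helper49.NF.fx g = fixCount g := by
  classical
  unfold fixCount Pool.Agent.Helper49.NF.fx
  rw [Nat.card_eq_fintype_card, Fintype.card_subtype]

/-- There is `n₀` such that for all `n ≥ n₀`: (1) if `G ≤ S_n`, all point stabilisers of `G` have the
same order, which is at most `n ^ (1/100)`, and every element of `G` different from the identity has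
at most `n ^ (4/5)` fixed points, then `B_n / G` has a symmetric chain decomposition; (2) the poset of
binary bracelets, i.e. `B_n / G` for the dihedral group `G` generated by the rotation `i ↦ i + 1` and
the reflection `i ↦ n - 1 - i`, has a symmetric chain decomposition. -/
theorem result : ∃ n₀ : ℕ,
    (∀ n : ℕ, n₀ ≤ n → ∀ G : Subgroup (Equiv.Perm (Fin n)),
      (∀ x y, stabOrder G x = stabOrder G y) → (∀ x, stabOrder G x ^ 100 ≤ n) →
      (∀ g ∈ G, g ≠ 1 → fixCount g ^ 5 ≤ n ^ 4) → QuotientHasSCD n G) ∧
    ∀ n : ℕ, n₀ ≤ n →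
      QuotientHasSCD n (Subgroup.closure {finRotate n, (Fin.revPerm : Equiv.Perm (Fin n))}) := by
  obtain ⟨n₀, h1, h2⟩ := Pool.Agent.Helper49.NF.final_main
  refine ⟨n₀, fun n hn G hst hst2 hfx => ?_, h2⟩
  refine h1 n hn G ?_ ?_ ?_
  · intro x y
    rw [stabOrder_eq, stabOrder_eq]
    exact hst x y
  · intro x
    rw [stabOrder_eq]
    exact hst2 x
  · intro g hg hg1
    rw [fixCount_eq]
    exact hfx g hg hg1

end Pool.Agent.Results.MP_0130f7_co.NearlyFreeGroups
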