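import Pool.Agent.Helper91.FS.Fin3

/-!
Symmetric chain decompositions of `B_n / G` for families of transitive permutation groups: semilinear
groups on the projective and on the affine line over a finite field, groups of prime degree, and groups
in which the elements different from the identity fix at most one point.
-/

namespace Pool.Agent.Results.MP_0130f7_co.TransitiveFamilies

/-- The quotient poset `B_n / G` has a symmetric chain decomposition: there are finitely many
non-empty lists of subsets of `Fin n`, in each of which consecutive sets `A`, `B` satisfy `A ⊆ B`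
and `|B| = |A| + 1` and the sizes of the first and the last set add up to `n`, such that every
subset of `Fin n` is in the `G`-orbit of exactly one entry of exactly one of the lists. -/
def QuotientHasSCD (n : ℕ) (G : Subgroup (Equiv.Perm (Fin n))) : Prop :=
  ∃ C : Finset (List (Finset (Fin n))),
    (∀ L ∈ C, L ≠ [] ∧
      (∀ (i : ℕ) (A B : Finset (Fin n)), L[i]? = some A → L[i+1]? = some B →
          A ⊆ B ∧ B.card = A.card + 1) ∧
      (∀ A ∈ L.head?, ∀ B ∈ L.getLast?, A.card + B.card = n)) ∧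
    ∀ S : Finset (Fin n), ∃! p : List (Finset (Fin n)) × ℕ,
      p.1 ∈ C ∧ ∃ T : Finset (Fin n), p.1[p.2]? = some T ∧
        ∃ g ∈ G, T.map (Equiv.toEmbedding g) = S

section

variable {n : ℕ}

/-- `G` is transitive on the points. -/
def Transitive (G : Subgroup (Equiv.Perm (Fin n))) : Prop := ∀ x y : Fin n, ∃ g ∈ G, g x = y

/-- `G` is transitive on the ordered pairs of different points. -/
def DoublyTransitive (G : Subgroup (Equiv.Perm (Fin n))) : Prop :=
  ∀ x y x' y' : Fin n, x ≠ y → x' ≠ y' → ∃ g ∈ G, g x = x' ∧ g y = y'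

/-- `PSL(2, K) ≤ G ≤ PΓL(2, K)` on the projective line `K ∪ {∞}`, identified with `Fin n`. -/
def ProjectiveLine (G : Subgroup (Equiv.Perm (Fin n))) : Prop :=
  ∃ (K : Type) (_ : Field K) (_ : DecidableEq K) (e : OnePoint K ≃ Fin n),
    (∀ (g : Equiv.Perm (Fin n)) (M : Matrix.GeneralLinearGroup (Fin 2) K),
      (M : Matrix (Fin 2) (Fin 2) K).det = 1 → (∀ x, g (e x) = e (M • x)) → g ∈ G) ∧
    ∀ g ∈ G, ∃ (M : Matrix.GeneralLinearGroup (Fin 2) K) (φ : K ≃+* K),
      ∀ x, g (e x) = e (M • OnePoint.map φ x)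

/-- `AGL(1, K) ≤ G ≤ AΓL(1, K)` on the affine line `K`, identified with `Fin n`. -/
def AffineLine (G : Subgroup (Equiv.Perm (Fin n))) : Prop :=
  ∃ (K : Type) (_ : Field K) (e : K ≃ Fin n),
    (∀ (g : Equiv.Perm (Fin n)) (a b : K), a ≠ 0 → (∀ x, g (e x) = e (a * x + b)) → g ∈ G) ∧
    ∀ g ∈ G, ∃ (a b : K) (φ : K ≃+* K), a ≠ 0 ∧ ∀ x, g (e x) = e (a * φ x + b)

/-- `G ≤ AGL(1, K)` on the affine line `K`, identified with `Fin n`. -/
def AffineMaps (G : Subgroup (Equiv.Perm (Fin n))) : Prop :=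
  ∃ (K : Type) (_ : Field K) (e : K ≃ Fin n), ∀ g ∈ G, ∃ a b : K, a ≠ 0 ∧
    ∀ x, g (e x) = e (a * x + b)

end

section

open Pool.Agent.Helper91.FS

theorem tr_psl {n : ℕ} {K : Type} [Field K] [DecidableEq K] (e : OnePoint K ≃ Fin n)
    (G : Subgroup (Equiv.Perm (Fin n)))
    (h : ∀ (g : Equiv.Perm (Fin n)) (M : Matrix.GeneralLinearGroup (Fin 2) K),
      (M : Matrix (Fin 2) (Fin 2) K).det = 1 → (∀ x, g (e x) = e (M • x)) → g ∈ G) :
    psl e ≤ G := by
  rintro g ⟨M, h1, h2⟩
  exact h g M h1 h2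

theorem hom_two {n : ℕ} {G : Subgroup (Equiv.Perm (Fin n))} (h : DoublyTransitive G) : Hom G 2 := by
  classical
  intro A hA B hB
  obtain ⟨x, y, hxy, rfl⟩ := Finset.card_eq_two.1 (Finset.mem_powersetCard.1 hA).2
  obtain ⟨x', y', hxy', rfl⟩ := Finset.card_eq_two.1 (Finset.mem_powersetCard.1 hB).2
  obtain ⟨g, hg, h1, h2⟩ := h x y x' y' hxy hxy'
  refine ⟨g, hg, ?_⟩
  simp [Pool.Agent.Helper47.SR.mv, h1, h2]

theorem fx_le_two {n : ℕ} (g : Equiv.Perm (Fin n))
    (h : ∀ x y z, g x = x → g y = y → g z = z → x = y ∨ x = z ∨ y = z) :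
    Pool.Agent.Helper49.NF.fx g ≤ 2 := by
  classical
  unfold Pool.Agent.Helper49.NF.fx
  by_contra hc
  push Not at hc
  obtain ⟨x, hx, y, hy, z, hz, hxy, hxz, hyz⟩ := Finset.two_lt_card.1 hc
  rw [Finset.mem_filter] at hx hy hz
  rcases h x y z hx.2 hy.2 hz.2 with h | h | h
  · exact hxy h
  · exact hxz h
  · exact hyz h

theorem card_ord {n : ℕ} (G : Subgroup (Equiv.Perm (Fin n))) (P : ℕ → Prop) [DecidablePred P] :
    ((Pool.Agent.Helper49.NF.els G).filter (fun γ => P (orderOf γ))).card =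
      Nat.card {g : G // P (orderOf g)} := by
  classical
  rw [← Nat.card_eq_finsetCard]
  exact Nat.card_congr
    { toFun := fun γ => ⟨⟨γ.1, (mem_els G γ.1).1 (Finset.mem_filter.1 γ.2).1⟩, by
        rw [Subgroup.orderOf_mk]
        exact (Finset.mem_filter.1 γ.2).2⟩
      invFun := fun γ => ⟨γ.1.1, Finset.mem_filter.2 ⟨(mem_els G γ.1.1).2 γ.1.2, by
        rw [Subgroup.orderOf_coe]
        exact γ.2⟩⟩
      left_inv := fun γ => rfl
      right_inv := fun γ => rfl }

theorem card_els {n : ℕ} (G : Subgroup (Equiv.Perm (Fin n))) :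
    (Pool.Agent.Helper49.NF.els G).card = Nat.card G := by
  classical
  rw [← Nat.card_eq_finsetCard]
  exact Nat.card_congr
    { toFun := fun γ => ⟨γ.1, (mem_els G γ.1).1 γ.2⟩
      invFun := fun γ => ⟨γ.1, (mem_els G γ.1).2 γ.2⟩
      left_inv := fun γ => rfl
      right_inv := fun γ => rfl }

theorem tr_pgam {n : ℕ} {K : Type} [Field K] [DecidableEq K] (e : OnePoint K ≃ Fin n)
    (G : Subgroup (Equiv.Perm (Fin n)))
    (h : ∀ g ∈ G, ∃ (M : Matrix.GeneralLinearGroup (Fin 2) K) (φ : K ≃+* K),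
      ∀ x, g (e x) = e (M • OnePoint.map φ x)) : G ≤ pgam e := fun g hg => h g hg

end

/-- There is `n₀` such that for all `n ≥ n₀` and all `G ≤ S_n`, `B_n / G` has a symmetric chain
decomposition if one of the following holds: `G` is a group between `PSL(2, K)` and `PΓL(2, K)` on the
projective line, or a group between `AGL(1, K)` and `AΓL(1, K)` on the affine line, or a transitive subgroup
of `AGL(1, K)`, for a finite field `K`; or `n` is prime, `G` is transitive, and solvable or not doubly transitive;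
or `G` is transitive, every element different from the identity fixes at most one point, and `G` has at most
`n ^ (9/5)` elements of order 3; or `G` is doubly transitive of order at most `n ^ (14/5)`, every element different
from the identity fixes at most two points, and `G` has at most `n ^ (9/5)` elements of order 2 or 3. -/
theorem result : ∃ n₀ : ℕ, ∀ n : ℕ, n₀ ≤ n → ∀ G : Subgroup (Equiv.Perm (Fin n)),
    (ProjectiveLine G ∨ AffineLine G ∨ (Transitive G ∧ AffineMaps G) ∨
      (n.Prime ∧ Transitive G ∧ (Group.IsSolvable G ∨ ¬ DoublyTransitive G)) ∨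
      (Transitive G ∧ (∀ g ∈ G, g ≠ 1 → ∀ x y, g x = x → g y = y → x = y) ∧
        Nat.card {g : G // orderOf g = 3} ^ 5 ≤ n ^ 9) ∨
      (DoublyTransitive G ∧
        (∀ g ∈ G, g ≠ 1 → ∀ x y z, g x = x → g y = y → g z = z → x = y ∨ x = z ∨ y = z) ∧
        Nat.card G ^ 5 ≤ n ^ 14 ∧ Nat.card {g : G // orderOf g = 2 ∨ orderOf g = 3} ^ 5 ≤ n ^ 9)) →
    QuotientHasSCD n G := by
  classical
  obtain ⟨n1, h1⟩ := Pool.Agent.Helper91.FS.everything.proj
  obtain ⟨n2, h2⟩ := Pool.Agent.Helper91.FS.everything.agam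
  obtain ⟨n3, h3⟩ := Pool.Agent.Helper91.FS.cor_le_aff
  obtain ⟨n4, h4⟩ := Pool.Agent.Helper91.FS.everything.prime
  obtain ⟨n5, h5⟩ := Pool.Agent.Helper91.FS.everything.frob
  obtain ⟨n6, h6⟩ := Pool.Agent.Helper91.FS.everything.fix2
  refine ⟨n1 + n2 + n3 + n4 + n5 + n6, fun n hn G hG => ?_⟩
  rcases hG with ⟨K, iK, iD, e, a1, a2⟩ | ⟨K, iK, e, a1, a2⟩ | ⟨htr, K, iK, e, a1⟩ | ⟨hp, htr, a1⟩ |
    ⟨htr, a1, a2⟩ | ⟨htr, a1, a2, a3⟩
  · exact h1 n (by omega) K e G (tr_psl e G a1) (tr_pgam e G a2)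
  · refine h2 n (by omega) K e G ?_ ?_
    · rintro g ⟨a, -, b, hg⟩
      exact a1 g a b a.ne_zero hg
    · intro g hg
      obtain ⟨a, b, φ, ha, hx⟩ := a2 g hg
      exact ⟨Units.mk0 a ha, b, φ, hx⟩
  · refine h3 n (by omega) K e G ?_ htr
    intro g hg
    obtain ⟨a, b, ha, hx⟩ := a1 g hg
    exact ⟨Units.mk0 a ha, Subgroup.mem_top _, b, hx⟩
  · refine h4 n (by omega) hp G htr ?_
    rcases a1 with h | h
    · exact Or.inl h
    · right
      unfold DoublyTransitive at h
      push Not at h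
      obtain ⟨x, y, x', y', b1, b2, b3⟩ := h
      exact ⟨x, y, x', y', b1, b2, fun γ hγ hc => b3 γ hγ hc.1 hc.2⟩
  · refine h5 n (by omega) G htr ?_ ?_
    · intro γ hγ hγ1
      unfold Pool.Agent.Helper49.NF.fx
      rw [Finset.card_le_one]
      intro x hx y hy
      rw [Finset.mem_filter] at hx hy
      exact a1 γ hγ hγ1 x y hx.2 hy.2
    · rw [card_ord G (fun k => k = 3)]
      exact a2
  · refine h6 n (by omega) G (hom_two htr) (fun γ hγ h1 => fx_le_two γ (a1 γ hγ h1)) ?_ ?_
    · rw [card_els]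
      exact a2
    · have e1 : (Pool.Agent.Helper49.NF.els G).filter (fun γ => orderOf γ = 2 ∨ orderOf γ = 3) =
          (Pool.Agent.Helper49.NF.els G).filter (fun γ => orderOf γ = 2) ∪
            (Pool.Agent.Helper49.NF.els G).filter (fun γ => orderOf γ = 3) := Finset.filter_or _ _ _
      have e2 : Disjoint ((Pool.Agent.Helper49.NF.els G).filter (fun γ => orderOf γ = 2))
          ((Pool.Agent.Helper49.NF.els G).filter (fun γ => orderOf γ = 3)) := by
        rw [Finset.disjoint_left]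
        intro γ hγ hγ'
        rw [Finset.mem_filter] at hγ hγ'
        omega
      rw [← Finset.card_union_of_disjoint e2, ← e1, card_ord G (fun k => k = 2 ∨ k = 3)]
      exact a3

end Pool.Agent.Results.MP_0130f7_co.TransitiveFamilies
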